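import Pool.Agent.W5h34.BZ.Mono
import Pool.Agent.W5h34.BZ.Box

/-!
# A Bezout inequality for kernel dimensions

Let `K(p)` be the kernel of `A₀ + ∑ p_k A_k`, for `p` in `ℂ ^ r`. On the `r`-th tensor power, over
the group `G ^ r`, we have the operator determinants `Δ₀` of `A₁, ..., A_r` and `Δ_k`, where `A_k` is
replaced by `A₀`. By Cramer's rule `Δ_k v = - p_k Δ₀ v` for tensors `v` of vectors of `K(p)`, as in
the multiparameter spectral theory of Atkinson. So with a linear form `ε` which separates the
points, the tensor power of `K(p)` lies in the kernel of the member with the parameter `ε(p)` of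
the pencil of `∑ ε_k Δ_k` and `Δ₀`. The excesses of the kernel dimensions of the members of a
linear pencil over that of `Δ₀` sum up to at most the rank of `Δ₀`, and `Δ₀` is injective in our
case, since products of locally indicable groups are locally indicable.
-/

set_option autoImplicit false

universe u

namespace Pool.Agent.Results.MP_95030e_al.BezoutInequality

/-- The kernel of right multiplication by the matrix `A` over the complex group ring on row vectors
of length `m` over `l2(G)`: all square-summable `x` with `x A = 0`. -/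
def kernel {G : Type u} [Group G] {m l : ℕ} (A : Matrix (Fin m) (Fin l) (G →₀ ℂ)) :
    Set (lp (fun _ : Fin m × G => ℂ) 2) :=
  {x | ∀ (j : Fin l) (g : G),
    ∑ k : Fin m, ∑ h ∈ (A k j).support, x (k, g * h⁻¹) * A k j h = 0}

open Classical in
/-- The von Neumann dimension of that kernel: the sum over `i` of one minus the square of the
distance from the basis vector at `(i, 1)` to the kernel, that is, the sum of the squared lengths
of the projections of these vectors to the kernel. -/
noncomputable def kerDim {G : Type u} [Group G] {m l : ℕ}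
    (A : Matrix (Fin m) (Fin l) (G →₀ ℂ)) : ℝ :=
  ∑ i : Fin m, (1 - Metric.infDist
    (lp.single (E := fun _ : Fin m × G => ℂ) 2 (i, (1 : G)) (1 : ℂ)) (kernel A) ^ 2)

/-- A group is locally indicable if every nontrivial finitely generated subgroup has a nontrivial
homomorphism to the group of integers. -/
def LocallyIndicable (H : Type u) [Group H] : Prop :=
  ∀ K : Subgroup H, K.FG → K ≠ ⊥ → ∃ φ : K →* Multiplicative ℤ, ∃ k, φ k ≠ 1

/-- The elements `f 0, ..., f (r - 1)` of the group ring are linearly independent over the complex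
numbers and their supports lie in one coset `H g` of a locally indicable subgroup `H`. -/
def InCoset {G : Type u} [Group G] {r : ℕ} (f : Fin r → (G →₀ ℂ)) : Prop :=
  LinearIndependent ℂ f ∧ ∃ (H : Subgroup G) (g : G), LocallyIndicable H ∧
    ∀ k, ∀ x ∈ (f k).support, x * g⁻¹ ∈ H

/-- The matrix `A` with the element `∑ k, a i k • f i k` of the group ring added to the entry at
`(ρ i, σ i)`, for all `i < q`. -/
noncomputable def family {G : Type u} [Group G] {m l q r : ℕ}
    (A : Matrix (Fin m) (Fin l) (G →₀ ℂ)) (ρ : Fin q → Fin m) (σ : Fin q → Fin l)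
    (f : Fin q → Fin r → (G →₀ ℂ)) (a : Fin q → Fin r → ℂ) :
    Matrix (Fin m) (Fin l) (G →₀ ℂ) :=
  fun x y => A x y + ∑ i, if ρ i = x ∧ σ i = y then ∑ k, a i k • f i k else 0

theorem kerDim_eq {G : Type u} [Group G] {m l : ℕ} (A : Matrix (Fin m) (Fin l) (G →₀ ℂ)) :
    kerDim A = W649.ZL.kerDimM A := by
  unfold kerDim W649.ZL.kerDimM
  congr!

theorem family_const {G : Type u} [Group G] {m l q r : ℕ}
    (A : Matrix (Fin m) (Fin l) (G →₀ ℂ)) (ρ : Fin q → Fin m) (σ : Fin q → Fin l)
    (f : Fin q → Fin r → (G →₀ ℂ)) (p : Fin r → ℂ) :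
    family A ρ σ f (fun _ => p) = W5h34.BZ.fam A (W5h34.BZ.mono ρ σ f) p := by
  funext x y
  unfold family W5h34.BZ.fam W5h34.BZ.mono
  congr 1
  simp only [Finset.smul_sum]
  rw [Finset.sum_comm]
  refine Finset.sum_congr rfl fun i _ => ?_
  by_cases h : ρ i = x ∧ σ i = y
  · simp only [if_pos h]
  · simp only [if_neg h, smul_zero, Finset.sum_const_zero]

theorem family_add {G : Type u} [Group G] {m l q r : ℕ}
    (A : Matrix (Fin m) (Fin l) (G →₀ ℂ)) (ρ : Fin q → Fin m) (σ : Fin q → Fin l)
    (f : Fin q → Fin r → (G →₀ ℂ)) (a b : Fin q → Fin r → ℂ) :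
    family A ρ σ f (fun i k => a i k + b i k) = family (family A ρ σ f a) ρ σ f b := by
  funext x y
  unfold family
  rw [add_assoc]
  congr 1
  rw [← Finset.sum_add_distrib]
  refine Finset.sum_congr rfl fun i _ => ?_
  by_cases h : ρ i = x ∧ σ i = y
  · simp only [if_pos h, add_smul, Finset.sum_add_distrib]
  · simp only [if_neg h, add_zero]

theorem inCoset_pair {G : Type u} [Group G] (x y : G) (h : ¬ IsOfFinOrder (x * y⁻¹)) :
    InCoset ![Finsupp.single x 1, Finsupp.single y 1] := by
  have hinj : Function.Injective (zpowersHom G (x * y⁻¹)) := by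
    intro a b hab
    have h1 := (injective_zpow_iff_not_isOfFinOrder.2 h)
    apply Multiplicative.toAdd.injective
    apply h1
    simpa [zpowersHom_apply] using hab
  have hLI : LocallyIndicable (zpowersHom G (x * y⁻¹)).range := by
    intro K _ hK
    let e := MonoidHom.ofInjective hinj
    refine ⟨e.symm.toMonoidHom.comp K.subtype, ?_⟩
    by_contra hcon
    push Not at hcon
    apply hK
    rw [Subgroup.eq_bot_iff_forall]
    intro z hz
    have h1 := hcon ⟨z, hz⟩
    have h2 : e.symm z = 1 := h1
    rw [MulEquiv.map_eq_one_iff] at h2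
    exact h2
  have hxy : x ≠ y := by
    rintro rfl
    apply h
    rw [mul_inv_cancel]
    exact IsOfFinOrder.one
  refine ⟨?_, (zpowersHom G (x * y⁻¹)).range, y, hLI, ?_⟩
  · have h1 := (Finsupp.linearIndependent_single_one ℂ G).comp ![x, y] (by
      intro a b hab
      fin_cases a <;> fin_cases b <;> simp_all)
    convert h1 using 1
    funext k
    fin_cases k <;> rfl
  · intro k z hz
    fin_cases k
    · have hz' : z = x := by
        by_contra hne
        exact Finsupp.mem_support_iff.1 hz (Finsupp.single_eq_of_ne (fun h => hne h))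
      refine ⟨Multiplicative.ofAdd 1, ?_⟩
      simp [zpowersHom_apply, hz']
    · have hz' : z = y := by
        by_contra hne
        exact Finsupp.mem_support_iff.1 hz (Finsupp.single_eq_of_ne (fun h => hne h))
      refine ⟨1, ?_⟩
      simp [hz']

/-- **A Bezout inequality for kernel dimensions.** Let `G` be a group, `A` an `m × l` matrix over
the complex group ring, `(ρ i, σ i)`, for `i < q`, places in different rows and columns, and for
every `i` let `f i 0, ..., f i (r - 1)` be linearly independent elements of the group ring with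
supports in one coset of a locally indicable subgroup of `G`, for example `r` different elements
of one such coset. The matrices `family A ρ σ f a` arise from `A` by adding `∑ k, a i k • f i k` at
the place `(ρ i, σ i)`; the excess of such a matrix is the positive part of its kernel dimension
minus `m - q`.

1. If the same point `p` of `ℂ ^ r` is used as coefficient vector at all these places, then the sum
   over any finite set of points `p` of the `r`-th powers of the excess is at most `q ^ r`.
2. If the coefficients are integers from `0` to `K - 1`, chosen independently, then the mean of the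
   `r`-th power of the excess is at most `(q ^ 2 / K) ^ r`.
3. Two elements `x`, `y` of `G` such that `x y⁻¹` has infinite order lie in one coset of a locally
   indicable subgroup. So in a torsion-free group, parts 1 and 2 hold with `r = 2` for arbitrary
   pairs of distinct elements of the group. -/
theorem result {G : Type u} [Group G] :
    (∀ (m l q r : ℕ) (A : Matrix (Fin m) (Fin l) (G →₀ ℂ)) (ρ : Fin q → Fin m)
      (σ : Fin q → Fin l) (f : Fin q → Fin r → (G →₀ ℂ)),
      Function.Injective ρ → Function.Injective σ → (∀ i, InCoset (f i)) →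
      (∀ P : Finset (Fin r → ℂ),
        ∑ p ∈ P, (max (kerDim (family A ρ σ f fun _ => p) - ((m : ℝ) - q)) 0) ^ r
          ≤ (q : ℝ) ^ r) ∧
      (0 < q → ∀ K : ℕ, 0 < K →
        ∑ a : Fin q → Fin r → Fin K,
          (max (kerDim (family A ρ σ f fun i k => ((a i k : ℕ) : ℂ)) - ((m : ℝ) - q)) 0) ^ r
          ≤ (K : ℝ) ^ (q * r) * ((q : ℝ) ^ 2 / K) ^ r)) ∧
    (∀ x y : G, ¬ IsOfFinOrder (x * y⁻¹) → InCoset ![Finsupp.single x 1, Finsupp.single y 1]) := by
  refine ⟨?_, inCoset_pair⟩
  intro m l q r A ρ σ f hρ hσ hf
  have h1 : ∀ (A : Matrix (Fin m) (Fin l) (G →₀ ℂ)) (P : Finset (Fin r → ℂ)),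
      ∑ p ∈ P, (max (kerDim (family A ρ σ f fun _ => p) - ((m : ℝ) - q)) 0) ^ r
        ≤ (q : ℝ) ^ r := by
    intro A P
    choose H g hH hg using fun i => (hf i).2
    have h2 := W5h34.BZ.bezout_mono A ρ σ hρ hσ f (fun i => (hf i).1) H hH g hg P
    rw [Fintype.card_fin] at h2
    refine le_trans (le_of_eq (Finset.sum_congr rfl fun p _ => ?_)) h2
    rw [kerDim_eq, family_const]
  refine ⟨h1 A, fun hq K hK => ?_⟩
  let F : (Fin q → Fin r → ℕ) → ℝ := fun a =>
    (max (kerDim (family A ρ σ f fun i k => ((a i k : ℕ) : ℂ)) - ((m : ℝ) - q)) 0) ^ r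
  have hF : ∀ a, 0 ≤ F a := fun a => pow_nonneg (le_max_right _ _) _
  have hdiag : ∀ b : Fin q → Fin r → ℕ,
      ∑ s ∈ Fintype.piFinset (fun _ : Fin r => Finset.range K), F (fun i k => b i k + s k)
        ≤ (q : ℝ) ^ r := by
    intro b
    classical
    have h2 := h1 (family A ρ σ f fun i k => ((b i k : ℕ) : ℂ))
      ((Fintype.piFinset (fun _ : Fin r => Finset.range K)).image
        (fun s : Fin r → ℕ => fun k => ((s k : ℕ) : ℂ)))
    rw [Finset.sum_image (by
      intro s _ s' _ h
      funext k
      exact Nat.cast_injective (congrFun h k))] at h2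
    refine le_trans (le_of_eq (Finset.sum_congr rfl fun s _ => ?_)) h2
    rw [← family_add]
    simp only [F]
    push_cast
    rfl
  have h3 := W5h34.BZ.box_sum (K := K) hq F hF _ hdiag
  have h4 : ∑ a : Fin q → Fin r → Fin K, F (fun i k => (a i k : ℕ))
      = ∑ a ∈ W5h34.BZ.box q r K, F a := by
    classical
    refine Finset.sum_bij (fun a _ => fun i k => (a i k : ℕ)) ?_ ?_ ?_ ?_
    · intro a _
      rw [W5h34.BZ.mem_box]
      exact fun i k => (a i k).2
    · intro a _ a' _ h
      funext i k
      exact Fin.ext (congrFun (congrFun h i) k)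
    · intro a ha
      rw [W5h34.BZ.mem_box] at ha
      exact ⟨fun i k => ⟨a i k, ha i k⟩, Finset.mem_univ _, rfl⟩
    · intro a _
      rfl
  have h5 : (q : ℝ) ^ r * (((K : ℝ) ^ (q - 1)) ^ r * (q : ℝ) ^ r)
      = (K : ℝ) ^ (q * r) * ((q : ℝ) ^ 2 / K) ^ r := by
    have hK' : (K : ℝ) ≠ 0 := by exact_mod_cast hK.ne'
    have h6 : (K : ℝ) ^ (q * r) = ((K : ℝ) ^ (q - 1)) ^ r * (K : ℝ) ^ r := by
      rw [← mul_pow, ← pow_succ, Nat.sub_add_cancel hq, pow_mul]
    rw [h6, div_pow, ← pow_mul]
    field_simp
    ring
  rw [← h5]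
  exact h4.le.trans h3

end Pool.Agent.Results.MP_95030e_al.BezoutInequality
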