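import Pool.Agent.W5h92.CR.Tf

set_option autoImplicit false

/-!
# The von Neumann rank and the cosets of a subgroup

Let `A` be an `m × l` matrix over the complex group ring of a group `G`, and `H` a subgroup of `G`.
Write the entries of row `i` of `A` as sums `∑ₛ xₛ bₛ`, where `x₁ H, …, x_k H` are different left
cosets and the `bₛ` are in the group ring of `H`. All these `bₛ` are the rows of a matrix `B` over
the group ring of `H`. The von Neumann rank of `A` is the sum over the rows `i` of the squared
distances `rᵢ` from the basis vectors `δᵢ` to the kernel of `A` on `ℓ²(G)^m`, and the same for `B`.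

1. If `Rᵢ` is the sum of the squared distances which belong to the `k` rows of `B` which come from
   the row `i` of `A`, then `Rᵢ ≤ k rᵢ`, for every group `G` and every subgroup `H`. Hence the rank of
   `A` is at least the rank of `B`, an integer if `H` satisfies the Atiyah conjecture, divided by the
   largest `k`. If moreover a translate of the cosets met by any row has at most `N` elements in
   common with the cosets met by row `i` (apart from the identical translate of row `i` itself), then
   `Rᵢ ≤ rᵢ (Rᵢ + N (1 - Rᵢ / k))`.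
2. If no nonzero element of the group ring of `H` has a kernel on `ℓ²(H)`, and column `j` of `A` is
   not zero and its entries meet at most `k` left cosets of `H` each, then the kernel dimension of `A`
   is at most `m - 1 / (1 + N (1 - 1 / k))`, which is `m - 1 / k` for `N = k`.
3. If `G` is torsion-free, and column `j` of `A` has `n > 0` terms in all, then the kernel dimension
   is at most `m - 2 n / (n ^ 2 + 1)`, and at most `m - 2 / n` if `n` is even.

Proof. (1) Let `uₛ` be the component of the basis vector `δ_(i,s)` orthogonal to the kernel of `B`.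
The vector `wᵢ = ∑ₛ` (extension of `uₛ`, moved to the cosets of `H`) of `ℓ²(G)^m` is orthogonal to
the kernel of `A`, its inner product with `δᵢ` is `Rᵢ`, and by the Cauchy-Schwarz inequality at every
point its squared norm is at most `Rᵢ ^ 2 + N (Rᵢ - Rᵢ ^ 2 / k)`.
(3) If a quotient `t ≠ 1` of terms of the column occurs at least `(n + 1) / 2` times, then the column
meets at most `n / 2` cosets of `H = ⟨t⟩`, and (2) applies; if not, the fourth moment of the column
is small.
-/

universe u

noncomputable section

namespace Pool.Agent.Results.MP_95030e_al.CosetRankBound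

/-- The kernel of right multiplication by the matrix `A` over the complex group ring of `G` on the
row vectors over `ℓ²(G)`. -/
def kernel {G : Type u} [Group G] {ι κ : Type} [Fintype ι] (A : Matrix ι κ (G →₀ ℂ)) :
    Set (lp (fun _ : ι × G => ℂ) 2) :=
  {x | ∀ (j : κ) (g : G), ∑ i, (A i j).sum (fun h c => x (i, g * h⁻¹) * c) = 0}

open Classical in
/-- The squared distance from the basis vector at `(i, 1)` to the kernel. -/
def share {G : Type u} [Group G] {ι κ : Type} [Fintype ι] (A : Matrix ι κ (G →₀ ℂ)) (i : ι) : ℝ :=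
  Metric.infDist (lp.single (E := fun _ : ι × G => ℂ) 2 (i, (1 : G)) (1 : ℂ)) (kernel A) ^ 2

/-- The von Neumann dimension of the kernel: the sum over the rows `i` of one minus the squared
distance from the basis vector at `(i, 1)` to the kernel, that is, the trace of the projection onto
the kernel. -/
def kerDim {G : Type u} [Group G] {ι κ : Type} [Fintype ι] (A : Matrix ι κ (G →₀ ℂ)) : ℝ :=
  ∑ i, (1 - share A i)

/-- The elements `x i s` are in different left cosets of `H` for each `i`, and the coefficients of
the entries of row `i` in the columns `j ∈ J` are zero outside these cosets. -/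
structure Cosets {G : Type u} [Group G] (H : Subgroup G) {m l : ℕ}
    (A : Matrix (Fin m) (Fin l) (G →₀ ℂ)) (J : Set (Fin l)) {k : Fin m → ℕ}
    (x : (i : Fin m) → Fin (k i) → G) : Prop where
  different : ∀ i s s', (x i s)⁻¹ * x i s' ∈ H → s = s'
  cover : ∀ i, ∀ j ∈ J, ∀ g, A i j g ≠ 0 → ∃ s, (x i s)⁻¹ * g ∈ H

/-- The matrix over the complex group ring of `H` with a row `(i, s)` for each row `i` of `A` and each
of the elements `x i s`: the coefficient of `h` in the entry of this row in the column `j` is the
coefficient of `x i s * h` in `A i j`. -/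
def split {G : Type u} [Group G] (H : Subgroup G) {m l : ℕ} (A : Matrix (Fin m) (Fin l) (G →₀ ℂ))
    {k : Fin m → ℕ} (x : (i : Fin m) → Fin (k i) → G) :
    Matrix ((i : Fin m) × Fin (k i)) (Fin l) (H →₀ ℂ) := fun p j =>
  (A p.1 j).comapDomain (fun h : H => x p.1 p.2 * h)
    (fun _ _ _ _ e => Subtype.ext (mul_left_cancel e))

/-- For all `g` in `G` and all rows `i'`, except for `g = 1` and `i' = i` at the same time, at most
`N` of the cosets `g * x i' s' * H` are among the cosets `x i s * H`. -/
def Overlap {G : Type u} [Group G] (H : Subgroup G) {m : ℕ} {k : Fin m → ℕ}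
    (x : (i : Fin m) → Fin (k i) → G) (i : Fin m) (N : ℕ) : Prop :=
  ∀ (i' : Fin m) (g : G), (i', g) ≠ (i, 1) →
    {p : Fin (k i) × Fin (k i') | (x i p.1)⁻¹ * g * x i' p.2 ∈ H}.ncard ≤ N

/-- Right multiplication by a nonzero element of the complex group ring is injective on `ℓ²`. -/
def NoKernel (H : Type u) [Group H] : Prop :=
  ∀ a : H →₀ ℂ, a ≠ 0 → ∀ f : H → ℂ, Memℓp f 2 →
    (∀ g, a.sum (fun h c => f (g * h⁻¹) * c) = 0) → f = 0

open Pool.Agent.W5h92 in
theorem kerDim_eq {G : Type u} [Group G] {m l : ℕ} (A : Matrix (Fin m) (Fin l) (G →₀ ℂ)) :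
    kerDim A = m - ∑ i, CR.share A i := by
  unfold kerDim
  rw [Finset.sum_sub_distrib, Finset.sum_const, Finset.card_univ, Fintype.card_fin, nsmul_eq_mul,
    mul_one]
  rfl

/-- **The von Neumann rank and the cosets of a subgroup.** -/
theorem result :
    (∀ (G : Type u) [Group G] (H : Subgroup G) (m l : ℕ) (A : Matrix (Fin m) (Fin l) (G →₀ ℂ))
      (k : Fin m → ℕ) (x : (i : Fin m) → Fin (k i) → G), Cosets H A Set.univ x → ∀ i : Fin m,
        ∑ s, share (split H A x) ⟨i, s⟩ ≤ k i * share A i ∧
        ∀ N : ℕ, 0 < k i → Overlap H x i N →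
          ∑ s, share (split H A x) ⟨i, s⟩ ≤ share A i *
            (∑ s, share (split H A x) ⟨i, s⟩
              + N * (1 - (∑ s, share (split H A x) ⟨i, s⟩) / k i))) ∧
    (∀ (G : Type u) [Group G] (H : Subgroup G), NoKernel H → ∀ (m l : ℕ)
      (A : Matrix (Fin m) (Fin l) (G →₀ ℂ)) (j : Fin l), (∃ i, A i j ≠ 0) →
      ∀ (k : Fin m → ℕ) (x : (i : Fin m) → Fin (k i) → G), Cosets H A {j} x →
      ∀ K N : ℕ, (∀ i, k i ≤ K) → N ≤ K → (∀ i, Overlap H x i N) →
        kerDim A ≤ m - 1 / (1 + N * (1 - 1 / (K : ℝ)))) ∧
    (∀ (G : Type u) [Group G], (∀ g : G, IsOfFinOrder g → g = 1) → ∀ (m l : ℕ)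
      (A : Matrix (Fin m) (Fin l) (G →₀ ℂ)) (j : Fin l), (∃ i, A i j ≠ 0) →
      ∀ n : ℕ, n = ∑ i, (A i j).support.card →
        kerDim A ≤ m - 2 * n / ((n : ℝ) ^ 2 + 1) ∧ (Even n → kerDim A ≤ m - 2 / n)) := by
  refine ⟨?_, ?_, ?_⟩
  · intro G _ H m l A k x hx i
    have hc : ∀ i j g, A i j g ≠ 0 → ∃ s, (x i s)⁻¹ * g ∈ H :=
      fun i j => hx.cover i j (Set.mem_univ j)
    refine ⟨?_, ?_⟩
    · have h1 := Pool.Agent.W5h92.CR.share_split_le H A x hx.different hc i
      rw [Fintype.card_fin] at h1
      exact h1
    · intro N hk hN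
      have : Nonempty (Fin (k i)) := ⟨⟨0, hk⟩⟩
      have h1 := Pool.Agent.W5h92.CR.share_split H A x hx.different hc i N hN _ rfl
      rw [Fintype.card_fin] at h1
      exact h1
  · intro G _ H hH m l A j hj k x hx K N hK hNK hN
    obtain ⟨i0, hi0⟩ := hj
    have h1 := Pool.Agent.W5h92.CR.col_bound H hH A j i0 hi0 x hx.different
      (fun i g hg => hx.cover i j rfl g hg) K N (fun i => by rw [Fintype.card_fin]; exact hK i) hNK
      (fun i i' g h => hN i i' g h)
    rw [kerDim_eq]
    have h2 : (0 : ℝ) < 1 + N * (1 - 1 / (K : ℝ)) := by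
      have h3 : 0 ≤ ∑ i, Pool.Agent.W5h92.CR.share A i :=
        Finset.sum_nonneg fun i _ => Pool.Agent.W5h92.CR.share_nonneg A i
      by_contra hcon
      push Not at hcon
      nlinarith
    have h3 : 1 / (1 + N * (1 - 1 / (K : ℝ))) ≤ ∑ i, Pool.Agent.W5h92.CR.share A i := by
      rw [div_le_iff₀ h2]
      exact h1
    linarith
  · intro G _ htf m l A j hj n hn
    obtain ⟨h1, h2⟩ := Pool.Agent.W5h92.CR.tf_bound htf A j hj n hn _ rfl
    rw [kerDim_eq]
    exact ⟨by linarith, fun he => by linarith [h2 he]⟩

end Pool.Agent.Results.MP_95030e_al.CosetRankBound
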