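import Pool.Agent.W7h60.LP.Fin

set_option autoImplicit false

/-!
# The Atiyah conjecture and leading parts of matrices over groups acting on totally ordered sets

Let a group `G` act on a totally ordered set `Ω` by order automorphisms (for instance a left-ordered
group on itself, a group with a left-orderable quotient on this quotient, or a group of
homeomorphisms of the line on the line). Give the rows and the columns of a matrix `A` over the
complex group ring weights `α i`, `β j` in `Ω` such that `α i ≤ h β j` for all terms `h` of the entry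
`A i j`; the leading part consists of the terms with `α i = h β j`.

(1) The kernel dimension of `A` is at most that of its leading part. (2) If all weights are in the
orbit of a point with stabiliser `H`, it is at most the kernel dimension, over `H`, of a matrix over
the group ring of `H`; so if this matrix has full rank, so has `A`, and the kernel dimension of `A`
is an integer. (3) If the nonzero elements of the complex group ring of a point stabiliser `H` have
no kernel on `ℓ²(H)`, those of `G` have no kernel on `ℓ²(G)`, and the kernel dimensions of all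
matrices over `G` with one row or one column are integers. (4) For a left-ordered group the von
Neumann rank of `A` is at least the rank of the complex matrix of the leading coefficients; if this
matrix has full rank, the kernel dimension is an integer.

Proof of (1). Let `e` be the projection of `ℓ²(G)^m` to the orthogonal complement of the kernel, and
for a basis vector `x` of weight `t` let `w x` be the component of `e x` which is orthogonal to the
closed span of the vectors `e y` with `y` of weight greater than `t`. Vectors `w x`, `w y` of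
different weights are orthogonal, so that `x ↦ w x` extends to a bounded equivariant operator `Θ` with
values in the range of `e`. As `A` does not decrease the weights, the kernel of `Θ` is contained in
the kernel of the leading part of `A`; compare the dimensions.
-/

noncomputable section

namespace Pool.Agent.Results.MP_95030e_al.LeadingParts

/-- The kernel of right multiplication by the matrix `A` on `ℓ²(G)^m`. -/
def kernel {G : Type} [Group G] {m n : ℕ} (A : Matrix (Fin m) (Fin n) (G →₀ ℂ)) :
    Set (lp (fun _ : Fin m × G => ℂ) 2) :=
  {x | ∀ (j : Fin n) (g : G),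
    ∑ i : Fin m, (A i j).sum (fun h c => x (i, g * h⁻¹) * c) = 0}

open Classical in
/-- The von Neumann dimension of this kernel: the sum over `i` of one minus the squared distance
from the basis vector at `(i, 1)` to the kernel, that is, the trace of the projection onto the
kernel. -/
def kerDim {G : Type} [Group G] {m n : ℕ} (A : Matrix (Fin m) (Fin n) (G →₀ ℂ)) : ℝ :=
  ∑ i : Fin m, (1 - (Metric.infDist
    (lp.single 2 (i, (1 : G)) (1 : ℂ) : lp (fun _ : Fin m × G => ℂ) 2) (kernel A)) ^ 2)

/-- `G` acts on the totally ordered set `Ω` by order automorphisms. -/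
def OrderAction (G Ω : Type) [Group G] [LinearOrder Ω] [MulAction G Ω] : Prop :=
  ∀ (g : G) (a b : Ω), a ≤ b → g • a ≤ g • b

/-- The leading part of `A` for the weights `α`, `β`: the terms `h` of the entries `A i j` with
`h β j = α i`. -/
def lead {G Ω : Type} [Group G] [LinearOrder Ω] [MulAction G Ω] {m n : ℕ} (α : Fin m → Ω)
    (β : Fin n → Ω) (A : Matrix (Fin m) (Fin n) (G →₀ ℂ)) : Matrix (Fin m) (Fin n) (G →₀ ℂ) :=
  fun i j => (A i j).filter fun h => h • β j = α i

/-- The matrix `B` over the group ring of the subgroup `H` consists of the terms of `A` in the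
cosets `s i H (t j)⁻¹`: the coefficient of `h` in `B i j` is that of `s i h (t j)⁻¹` in `A i j`. -/
def IsPart {G : Type} [Group G] {m n : ℕ} (H : Subgroup G) (s : Fin m → G) (t : Fin n → G)
    (A : Matrix (Fin m) (Fin n) (G →₀ ℂ)) (B : Matrix (Fin m) (Fin n) (H →₀ ℂ)) : Prop :=
  ∀ i j (h : H), B i j h = A i j (s i * h * (t j)⁻¹)

/-- The matrix with the one entry `a`. -/
def one {G : Type} [Group G] (a : G →₀ ℂ) : Matrix (Fin 1) (Fin 1) (G →₀ ℂ) := fun _ _ => a

/-- Nonzero elements of the complex group ring have kernel dimension `0`. -/
def NoKernels (G : Type) [Group G] : Prop := ∀ a : G →₀ ℂ, a ≠ 0 → kerDim (one a) = 0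

open Pool.Agent.W7h60.LP Pool.Agent.W649.ZL

theorem kerDim_eq {G : Type} [Group G] {m n : ℕ} (A : Matrix (Fin m) (Fin n) (G →₀ ℂ)) :
    kerDim A = kerDimM A := rfl

/-- (0) The definition of the kernel dimension detects kernels: it is `0` only if the kernel is
trivial. (1) The leading part inequality. (2) Matrices over point stabilisers. (3) Elements of the
group ring and matrices with one row or one column. (4) Left-ordered groups. -/
theorem result :
    (∀ (G : Type) [Group G] (m n : ℕ) (A : Matrix (Fin m) (Fin n) (G →₀ ℂ)),
      kerDim A = 0 → kernel A = {0}) ∧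
    (∀ (G Ω : Type) [Group G] [LinearOrder Ω] [MulAction G Ω], OrderAction G Ω →
      ∀ (m n : ℕ) (α : Fin m → Ω) (β : Fin n → Ω) (A : Matrix (Fin m) (Fin n) (G →₀ ℂ)),
        (∀ i j h, A i j h ≠ 0 → α i ≤ h • β j) → kerDim A ≤ kerDim (lead α β A)) ∧
    (∀ (G Ω : Type) [Group G] [LinearOrder Ω] [MulAction G Ω], OrderAction G Ω →
      ∀ (ω : Ω) (m n : ℕ) (s : Fin m → G) (t : Fin n → G)
        (A : Matrix (Fin m) (Fin n) (G →₀ ℂ)),
        (∀ i j h, A i j h ≠ 0 → s i • ω ≤ h • t j • ω) →
        ∃ B : Matrix (Fin m) (Fin n) (MulAction.stabilizer G ω →₀ ℂ),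
          IsPart (MulAction.stabilizer G ω) s t A B ∧ kerDim A ≤ kerDim B ∧
          (kerDim B = m - (min m n : ℕ) → kerDim A = m - (min m n : ℕ))) ∧
    (∀ (G Ω : Type) [Group G] [LinearOrder Ω] [MulAction G Ω], OrderAction G Ω →
      ∀ ω : Ω, NoKernels (MulAction.stabilizer G ω) →
        NoKernels G ∧ ∀ (m n : ℕ), m = 1 ∨ n = 1 →
          ∀ A : Matrix (Fin m) (Fin n) (G →₀ ℂ), ∃ d : ℤ, kerDim A = d) ∧
    (∀ (G : Type) [Group G] [LinearOrder G], (∀ a b c : G, a ≤ b → c * a ≤ c * b) →
      ∀ (m n : ℕ) (s : Fin m → G) (t : Fin n → G) (A : Matrix (Fin m) (Fin n) (G →₀ ℂ)),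
        (∀ i j h, A i j h ≠ 0 → s i ≤ h * t j) →
        ∀ M : Matrix (Fin m) (Fin n) ℂ, (∀ i j, M i j = A i j (s i * (t j)⁻¹)) →
          kerDim A ≤ m - M.rank ∧
          (M.rank = min m n → kerDim A = m - (min m n : ℕ))) := by
  classical
  refine ⟨?_, ?_, ?_, ?_, ?_⟩
  · intro G _ m n A h
    have h' := (kerDimM_op (fun i j => A i j)).symm.trans h
    have h1 := eq_bot_of_vd_eq_zero _ (ker_inv A) h'.le
    have h2 := flp_image_op A
    rw [h1] at h2
    ext x
    constructor
    · intro hx
      have h3 : flp x ∈ ((⊥ : Submodule ℂ (EE G (Fin m))) : Set (EE G (Fin m))) := by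
        rw [← h2]
        exact ⟨x, hx, rfl⟩
      have h4 : flp x = 0 := h3
      have h5 : flp x = flp 0 := by
        rw [h4]
        ext y
        rfl
      exact isometry_flp.injective h5
    · rintro rfl
      have h6 : kernM A = kernel A := rfl
      intro j g
      refine Finset.sum_eq_zero fun i _ => ?_
      refine Finset.sum_eq_zero fun y _ => ?_
      change (0 : ℂ) * _ = 0
      rw [zero_mul]
  · intro G Ω _ _ _ hm m n α β A hA
    exact leading hm α β A hA
  · intro G Ω _ _ _ hm ω m n s t A hA
    refine ⟨subP (MulAction.stabilizer G ω) s t A, fun i j h => rfl, ?_, ?_⟩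
    · exact stabilizer_le hm ω s t A hA
    · intro hB
      apply kerDimM_eq_of_le A
      have h1 := stabilizer_le hm ω s t A hA
      have h2 : kerDimM (subP (MulAction.stabilizer G ω) s t A) = m - (min m n : ℕ) := hB
      rw [h2] at h1
      exact h1
  · intro G Ω _ _ _ hm ω hH
    have hG : NoKernels G := fun a ha => elements_of_stabilizer hm ω hH a ha
    exact ⟨hG, fun m n hmn A => int_of_single hmn hG A⟩
  · intro G _ _ hm m n s t A hA M hM
    have h1 := left_ordered_le hm s t A hA
    have h2 : (Matrix.of fun i j => A i j (s i * (t j)⁻¹) : Matrix (Fin m) (Fin n) ℂ) = M := by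
      ext i j
      rw [hM]
      rfl
    rw [h2] at h1
    refine ⟨h1, fun hr => kerDimM_eq_of_le A ?_⟩
    rw [hr] at h1
    exact h1

end Pool.Agent.Results.MP_95030e_al.LeadingParts
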