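import Pool.Agent.W5h34.AT.Pat

set_option autoImplicit false

universe u

namespace Pool.Agent.Results.MP_95030e_al.RandomCoefficients

/-- The kernel of right multiplication by the matrix `A` over the complex group ring on row vectors
of length `m` over `l2(G)`: all square-summable `x` with `x A = 0`. -/
def kernel {G : Type u} [Group G] {m l : ℕ} (A : Matrix (Fin m) (Fin l) (G →₀ ℂ)) :
    Set (lp (fun _ : Fin m × G => ℂ) 2) :=
  {x | ∀ (j : Fin l) (g : G),
    ∑ k : Fin m, ∑ h ∈ (A k j).support, x (k, g * h⁻¹) * A k j h = 0}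

open Classical in
/-- The von Neumann dimension of that kernel: the sum over `i` of one minus the square of the
distance from the basis vector at `(i, 1)` to the kernel, that is, the sum of the squared lengths
of the projections of these vectors to the kernel. -/
noncomputable def kerDim {G : Type u} [Group G] {m l : ℕ}
    (A : Matrix (Fin m) (Fin l) (G →₀ ℂ)) : ℝ :=
  ∑ i : Fin m, (1 - Metric.infDist
    (lp.single (E := fun _ : Fin m × G => ℂ) 2 (i, (1 : G)) (1 : ℂ)) (kernel A) ^ 2)

/-- The index set of the coefficients of the `m × l` matrices whose entry at `(i, j)` is supported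
in `T i j`. -/
abbrev Index {G : Type u} {m l : ℕ} (T : Fin m → Fin l → Finset G) : Type u :=
  (i : Fin m) × (j : Fin l) × T i j

/-- The matrix whose entry at `(i, j)` is the sum of `a (i, j, t) t` over `t` in `T i j`. -/
noncomputable def mat {G : Type u} {m l : ℕ} (T : Fin m → Fin l → Finset G)
    (a : Index T → ℂ) : Matrix (Fin m) (Fin l) (G →₀ ℂ) :=
  fun i j => ∑ t : T i j, Finsupp.single (t : G) (a ⟨i, j, t⟩)

open Classical in
/-- The largest value of `|S| - |N(S)|`, where `S` is a set of rows and `N(S)` is the set of the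
columns `j` for which some `T i j` with `i` in `S` is nonempty. -/
noncomputable def deficiency {G : Type u} {m l : ℕ} (T : Fin m → Fin l → Finset G) : ℕ :=
  Finset.univ.sup (fun S : Finset (Fin m) =>
    S.card - (Finset.univ.filter (fun j : Fin l => ∃ i ∈ S, (T i j).Nonempty)).card)

theorem kerDim_eq {G : Type u} [Group G] {m l : ℕ} (A : Matrix (Fin m) (Fin l) (G →₀ ℂ)) :
    kerDim A = W649.ZL.kerDimM A := by
  unfold kerDim W649.ZL.kerDimM
  congr!

theorem hmat {G : Type u} [Group G] {m l : ℕ} (T : Fin m → Fin l → Finset G)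
    (a : Index T → ℂ) : W649.ZL.matM (fun i : Index T => (i.2.2.1 : G)) (fun i => i.1)
      (fun i => i.2.1) a = mat T a := by
  funext i' j'
  unfold W649.ZL.matM mat
  rw [Fintype.sum_sigma]
  rw [Finset.sum_eq_single i']
  · rw [Fintype.sum_sigma, Finset.sum_eq_single j']
    · refine Finset.sum_congr rfl fun t _ => ?_
      rw [if_pos ⟨rfl, rfl⟩]
    · intro y _ hy
      apply Finset.sum_eq_zero
      intro t _
      rw [if_neg]
      rintro ⟨_, h2⟩
      exact hy h2
    · intro hh; exact absurd (Finset.mem_univ _) hh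
  · intro x _ hx
    apply Finset.sum_eq_zero
    intro t _
    rw [if_neg]
    rintro ⟨h1, _⟩
    exact hx h1
  · intro hh; exact absurd (Finset.mem_univ _) hh

open Classical in
theorem hall {G : Type u} [Group G] {m l : ℕ} (T : Fin m → Fin l → Finset G) :
    (∀ S : Finset (Fin m), S.card ≤ (Finset.univ.filter
      (fun y : Fin l => ∃ i : Index T, i.1 ∈ S ∧ i.2.1 = y)).card + deficiency T) ∧
    (∃ S : Finset (Fin m), S.card = (Finset.univ.filter
      (fun y : Fin l => ∃ i : Index T, i.1 ∈ S ∧ i.2.1 = y)).card + deficiency T) ∧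
    deficiency T ≤ m := by
  have hN : ∀ S : Finset (Fin m),
      (Finset.univ.filter (fun y : Fin l => ∃ i : Index T, i.1 ∈ S ∧ i.2.1 = y))
        = Finset.univ.filter (fun j : Fin l => ∃ i ∈ S, (T i j).Nonempty) := by
    intro S
    ext y
    simp only [Finset.mem_filter, Finset.mem_univ, true_and]
    constructor
    · rintro ⟨⟨i, y', t⟩, hi, rfl⟩
      exact ⟨i, hi, ⟨t.1, t.2⟩⟩
    · rintro ⟨i, hi, t, ht⟩
      exact ⟨⟨i, y, ⟨t, ht⟩⟩, hi, rfl⟩
  refine ⟨?_, ?_, ?_⟩
  · intro S
    rw [hN]
    have h1 : S.card - (Finset.univ.filter (fun j : Fin l => ∃ i ∈ S, (T i j).Nonempty)).card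
        ≤ deficiency T := Finset.le_sup (f := fun S : Finset (Fin m) =>
          S.card - (Finset.univ.filter (fun j : Fin l => ∃ i ∈ S, (T i j).Nonempty)).card)
          (Finset.mem_univ S)
    omega
  · obtain ⟨S, _, hS⟩ := Finset.exists_mem_eq_sup (Finset.univ : Finset (Finset (Fin m)))
      ⟨∅, Finset.mem_univ _⟩ (fun S : Finset (Fin m) =>
        S.card - (Finset.univ.filter (fun j : Fin l => ∃ i ∈ S, (T i j).Nonempty)).card)
    have hS' : deficiency T = S.card -
        (Finset.univ.filter (fun j : Fin l => ∃ i ∈ S, (T i j).Nonempty)).card := hS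
    by_cases h0 : deficiency T = 0
    · refine ⟨∅, ?_⟩
      rw [h0]
      simp
    · refine ⟨S, ?_⟩
      rw [hN]
      omega
  · refine Finset.sup_le fun S _ => ?_
    have h1 : S.card ≤ m := by
      have := Finset.card_le_univ S
      rwa [Fintype.card_fin] at this
    omega

open Classical in
/-- Let `G` be any group. Part (1): let finite subsets `T i j` of `G` be given, for `i < m`,
`j < l`, and for each of the coefficients of the matrices with these supports a finite set of at
least `K` complex numbers. Whatever the fixed matrix `C` over the complex group ring, if the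
coefficients `a` are chosen in these sets then the excess of the dimension of the kernel of
`C + mat T a` over the integer `deficiency T` is on average at most `(m - deficiency T) / K`, and
is at least `r` for a proportion of at most `2 ^ (m - deficiency T) / K ^ r` of the `a`. For `C = 0`
the dimension is always at least `deficiency T`. Part (2): the same for the matrices obtained from
`A` by adding `B` with its columns multiplied by numbers chosen in sets of at least `K` complex
numbers, with `kerDim B` in place of the deficiency. -/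
theorem result {G : Type u} [Group G] {m l : ℕ} :
    -- (1)
    (∀ (T : Fin m → Fin l → Finset G) (S : Index T → Finset ℂ) (K : ℕ), 0 < K →
      (∀ e, K ≤ (S e).card) →
      (∀ a : Index T → ℂ, (deficiency T : ℝ) ≤ kerDim (mat T a)) ∧
      ∀ C : Matrix (Fin m) (Fin l) (G →₀ ℂ),
        ∑ a ∈ Fintype.piFinset S, max (kerDim (C + mat T a) - deficiency T) 0
          ≤ (Fintype.piFinset S).card * (((m : ℝ) - deficiency T) / K) ∧
        ∀ r : ℝ, (((Fintype.piFinset S).filter
            (fun a => deficiency T + r ≤ kerDim (C + mat T a))).card : ℝ)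
          ≤ (Fintype.piFinset S).card * ((2 : ℝ) ^ ((m : ℝ) - deficiency T) / (K : ℝ) ^ r)) ∧
    -- (2)
    (∀ (A B : Matrix (Fin m) (Fin l) (G →₀ ℂ)) (S : Fin l → Finset ℂ) (K : ℕ), 0 < K →
      (∀ j, K ≤ (S j).card) →
      ∑ a ∈ Fintype.piFinset S, max (kerDim (fun i j => A i j + a j • B i j) - kerDim B) 0
        ≤ (Fintype.piFinset S).card * (((m : ℝ) - kerDim B) / K) ∧
      ∀ r : ℝ, (((Fintype.piFinset S).filter
          (fun a => kerDim B + r ≤ kerDim (fun i j => A i j + a j • B i j))).card : ℝ)
        ≤ (Fintype.piFinset S).card * ((2 : ℝ) ^ ((m : ℝ) - kerDim B) / (K : ℝ) ^ r)) := by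
  refine ⟨?_, ?_⟩
  · intro T S K hK hS
    obtain ⟨hd, hd', hdm⟩ := hall T
    refine ⟨fun a => ?_, fun C => ?_⟩
    · obtain ⟨h1, -⟩ := W649.ZL.generic_value (fun i : Index T => (i.2.2.1 : G)) (fun i => i.1)
        (fun i => i.2.1) (deficiency T) hd hd'
      rw [kerDim_eq, ← hmat, W649.ZL.kerDimM_eq]
      exact h1 a
    · have h1 := W5h34.AT.pattern C (fun i : Index T => (i.2.2.1 : G)) (fun i => i.1)
        (fun i => i.2.1) (deficiency T) hd (by rw [Fintype.card_fin]; exact hdm) S K hK hS
      rw [Fintype.card_fin] at h1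
      have hk : ∀ a : Index T → ℂ, kerDim (C + mat T a) = W649.ZL.kerDimM (fun k' j' => C k' j' +
          W649.ZL.matM (fun i : Index T => (i.2.2.1 : G)) (fun i => i.1)
            (fun i => i.2.1) a k' j') := by
        intro a
        rw [kerDim_eq, hmat]
        rfl
      refine ⟨le_trans (le_of_eq (Finset.sum_congr rfl fun a _ => ?_)) h1.1, fun r => ?_⟩
      · rw [hk]
      · have h2 : (0 : ℝ) ≤ (m : ℝ) - deficiency T := by
          rw [sub_nonneg]; exact_mod_cast hdm
        apply W5h34.AT.tail _ _ _ _ _ h2 K hK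
        intro x hx
        refine le_trans (le_of_eq (Finset.sum_congr rfl fun a _ => ?_)) (h1.2 x hx)
        rw [hk]
  · intro A B S K hK hS
    have h1 := W5h34.AT.columns A B S K hK hS
    rw [Fintype.card_fin, ← kerDim_eq] at h1
    refine ⟨le_trans (le_of_eq (Finset.sum_congr rfl fun a _ => ?_)) h1.1, fun r => ?_⟩
    · rw [kerDim_eq (fun i j => A i j + a j • B i j)]
    · have h2 : (0 : ℝ) ≤ (m : ℝ) - kerDim B := by
        have h3 := (W5h34.AT.kerDimM_eq' (K := Fin m) (L := Fin l) B).le.trans
          (W649.ZL.vd_le_card _)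
        rw [Fintype.card_fin] at h3
        rw [sub_nonneg, kerDim_eq]
        exact h3
      apply W5h34.AT.tail _ _ _ _ _ h2 K hK
      intro x hx
      refine le_trans (le_of_eq (Finset.sum_congr rfl fun a _ => ?_)) (h1.2 x hx)
      rw [kerDim_eq (fun i j => A i j + a j • B i j)]

end Pool.Agent.Results.MP_95030e_al.RandomCoefficients
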